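import Pool.Agent.Lib.MP_4aa539_al.Final

set_option autoImplicit false

namespace Pool.Agent.Results.MP_4aa539_al.NotUnimodal

open MvPolynomial Pool.Agent.MP4aa539

/-- There is a pure simplicial complex of dimension `12` (on some finite vertex set `V`) whose
sequence of extreme mixed multiplicities `A(0), …, A(11)` satisfies `A(10) < A(9)` and
`A(10) < A(11)`, over every field; in particular it is not unimodal. -/
theorem result : ∃ (V : Type) (_ : Fintype V) (Δ : SComplex V), Δ.IsPure 12 ∧
    ∀ (K : Type) [Field K], ∃ P : MvPolynomial (Fin 12) ℚ,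
      IsMixedPoly K Δ 12 P ∧ (∀ Q, IsMixedPoly K Δ 12 Q → Q = P) ∧
      P.totalDegree = Fintype.card V - 1 ∧
      extremeMult V P 10 < extremeMult V P 9 ∧
      extremeMult V P 10 < extremeMult V P 11 := by
  obtain ⟨m, hpure, hm, P, ⟨N₀, hP⟩, hdeg, hpos, h9, h11⟩ := main
  refine ⟨Vt m, inferInstance, cx m, hpure, fun K _ => ⟨P, ?_, ?_, ?_, ?_, ?_⟩⟩
  · exact ⟨N₀, fun u hu => by rw [fiberDim_eq]; exact hP u hu⟩
  · intro Q hQ
    exact mixed_unique K (cx m) 12 Q P hQ ⟨N₀, fun u hu => by rw [fiberDim_eq]; exact hP u hu⟩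
  · refine le_antisymm hdeg ?_
    have := le_totalDegree (mem_support_iff.mpr hpos.ne')
    rwa [Finsupp.sum_single_index rfl] at this
  · unfold extremeMult
    exact mul_lt_mul_of_pos_left h9 (by exact_mod_cast Nat.factorial_pos _)
  · unfold extremeMult
    exact mul_lt_mul_of_pos_left h11 (by exact_mod_cast Nat.factorial_pos _)

end Pool.Agent.Results.MP_4aa539_al.NotUnimodal
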